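import Mathlib
import Pool.Agent.TH104.HY.I
import Pool.Agent.TH855.CBounds

set_option autoImplicit false

/-!
# The Havet-Yu conjecture for `F`-free graphs and `p ≥ (c(F) / 2 + ε) D / log D`
-/

namespace Pool.Agent.R143.HYF

open Finset Pool.Agent.H238R2.HY Pool.Agent.TH104.HY Pool.Agent.Helper311.Glue

/-- colouring the types of an `F`-free graph -/
lemma ff_colour {W V : Type} [Fintype V] (F : SimpleGraph W) (G : SimpleGraph V)
    [DecidableRel G.Adj] (hfree : F.Free G) {c' y : ℝ} (hc' : 0 ≤ c')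
    (hy0 : 0 ≤ y / Real.log y)
    (hGB : ∀ P : Set V, (∀ T : Set V, T ⊆ P → ¬ Cp F G T) →
      (∀ v ∈ P, ((@Finset.filter V (fun u => u ∈ P) (fun _ => Classical.propDecidable _)
        (G.neighborFinset v)).card : ℝ) ≤ y) →
        ∃ n : ℕ, (n : ℝ) ≤ c' * (y / Real.log y) ∧ ColOn G P n)
    (t : V → ℕ) (w : ℕ) (hwy : (w : ℝ) ≤ y)
    (hw : ∀ v z, ((G.neighborFinset v).filter (fun u => t u = z)).card ≤ w) :
    ∃ c : V → ℕ, (∀ v, c v < ⌊c' * (y / Real.log y)⌋₊ + 1) ∧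
      ∀ u v, G.Adj u v → t u = t v → c u ≠ c v := by
  classical
  have h : ∀ z : ℕ, ∃ f : V → ℕ, (∀ v, t v = z → f v < ⌊c' * (y / Real.log y)⌋₊ + 1) ∧
      ∀ u, t u = z → ∀ v, t v = z → G.Adj u v → f u ≠ f v := by
    intro z
    obtain ⟨n, hn, f, hf1, hf2⟩ := hGB {v | t v = z} (by
      rintro T _ ⟨φ, ⟨hφ1, hφ2⟩, _⟩
      exact hfree ⟨⟨⟨φ, fun {a b} h => hφ2 a b h⟩, hφ1⟩⟩) (by
      intro v _
      refine le_trans ?_ hwy
      have := hw v z
      refine le_trans ?_ (Nat.cast_le.2 this)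
      rw [Nat.cast_le]
      apply Finset.card_le_card
      intro u hu
      have hu' := (@Finset.mem_filter V (fun u => u ∈ {v | t v = z})
        (fun _ => Classical.propDecidable _) (G.neighborFinset v) u).1 hu
      exact Finset.mem_filter.2 ⟨hu'.1, hu'.2⟩)
    refine ⟨f, ?_, ?_⟩
    · intro v hv
      have h1 := hf1 v hv
      have h2 : n ≤ ⌊c' * (y / Real.log y)⌋₊ := Nat.le_floor hn
      omega
    · intro u hu v hv huv
      exact hf2 u hu v hv huv
  choose f hf1 hf2 using h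
  refine ⟨fun v => f (t v) v, fun v => hf1 (t v) v rfl, ?_⟩
  intro u v huv htt h
  simp only at h
  rw [htt] at h
  exact hf2 (t v) u htt v rfl huv h

lemma ff_H2 {C a L D m x Y w k : ℝ} (hL : 10 ^ 4 ≤ L) (hm0 : 1 ≤ m)
    (hm2 : m ≤ L ^ 2 / 100) (h96 : 96 * L ^ 2 * m ^ 2 ≤ D) (hxD : x * D = D / L ^ 2)
    (hY : 2 * m * Y = D) (hY0 : 0 < Y) (hw : w ≤ (1 + x) * Y) (hw2 : Y ≤ w + 1)
    (hCL : 100 * (C + a) ≤ L)
    (hk : k ≤ (C + a) * Y / L + 1) :
    2 * (0 + 1) * k + (2 * m - 1 - 2 * 0) * (w + 1) ≤ D + 2 := by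
  have hL0 : 0 < L := by linarith
  have h1 : 2 * m * (w + 1) ≤ D + x * D + 2 * m := by
    have h2 : 2 * m * (w + 1) ≤ 2 * m * ((1 + x) * Y + 1) :=
      mul_le_mul_of_nonneg_left (by linarith) (by linarith)
    have h3 : 2 * m * ((1 + x) * Y + 1) = 2 * m * Y + x * (2 * m * Y) + 2 * m := by ring
    rw [h3, hY] at h2
    exact h2
  have h4 : x * D ≤ Y / 50 := by
    rw [hxD, div_le_iff₀ (by positivity), ← hY]
    nlinarith
  have h5 : 2 * m ≤ Y / 24 := by
    have h6 : 2 * m * (2 * m) ≤ 2 * m * (Y / 24) := by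
      have h7 : 2 * m * (Y / 24) = D / 24 := by rw [← hY]; ring
      rw [h7]
      have h8 : m ^ 2 * 96 ≤ m ^ 2 * (96 * L ^ 2) := by
        apply mul_le_mul_of_nonneg_left _ (by positivity)
        nlinarith
      nlinarith
    exact le_of_mul_le_mul_left h6 (by linarith)
  have h9 : (C + a) * Y / L ≤ Y / 100 := by
    rw [div_le_iff₀ hL0]
    have : 100 * (C + a) * Y ≤ L * Y := mul_le_mul_of_nonneg_right hCL hY0.le
    linarith
  linarith

lemma ff_H3 {C b L D m x Y w k p E : ℝ} (hb0 : 0 < b)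
    (hL : 10 ^ 4 ≤ L) (hm0 : 1 ≤ m)
    (h96 : 96 * L ^ 2 * m ^ 2 ≤ D) (hεL : 16 ≤ b * L)
    (hεm : 8 * L ≤ b * m) (hxD : x * D = D / L ^ 2) (hx1 : x ≤ 1)
    (hY : 2 * m * Y = D) (hY0 : 0 < Y) (hw : w ≤ (1 + x) * Y) (hbE : b ≤ E / 16)
    (hk : k ≤ (C + E / 2) * Y / L + 1) (hp : (C / 2 + E) * (D / L) ≤ p) :
    m * k + (2 * m + 1) * (w + 1) ≤ D + p + 2 := by
  have hL0 : 0 < L := by linarith
  obtain ⟨Q, hQ⟩ : ∃ Q : ℝ, Q = D / L := ⟨_, rfl⟩
  have hQL : Q * L = D := by rw [hQ]; field_simp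
  have hD0 : 0 < D := by rw [← hY]; positivity
  have hQ0 : 0 < Q := by rw [hQ]; positivity
  rw [← hQ] at hp
  have h1 : m * k ≤ (C + E / 2) * (Q / 2) + m := by
    have h2 : m * k ≤ m * ((C + E / 2) * Y / L + 1) := mul_le_mul_of_nonneg_left hk (by linarith)
    have h3 : m * ((C + E / 2) * Y / L + 1) = (C + E / 2) * ((2 * m * Y) / L / 2) + m := by
      field_simp
    rw [h3, hY, ← hQ] at h2
    exact h2
  have h4 : (2 * m + 1) * (w + 1) ≤ (2 * m + 1) * ((1 + x) * Y + 1) :=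
    mul_le_mul_of_nonneg_left (by linarith) (by linarith)
  have h5 : (2 * m + 1) * ((1 + x) * Y + 1) =
      2 * m * Y + x * (2 * m * Y) + 2 * m + (1 + x) * Y + 1 := by ring
  rw [h5, hY, hxD] at h4
  have h6 : D / L ^ 2 ≤ b / 16 * Q := by
    rw [div_le_iff₀ (by positivity)]
    have : b / 16 * Q * L ^ 2 = (Q * L) * (b * L / 16) := by ring
    rw [this, hQL]
    nlinarith
  have h7 : 2 * Y ≤ b / 8 * Q := by
    have h8 : m * (2 * Y) ≤ m * (b / 8 * Q) := by
      have e1 : m * (2 * Y) = Q * L := by rw [hQL, ← hY]; ring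
      have e2 : m * (b / 8 * Q) = Q * (b * m / 8) := by ring
      rw [e1, e2]
      exact mul_le_mul_of_nonneg_left (by linarith) hQ0.le
    exact le_of_mul_le_mul_left h8 (by linarith)
  have h9 : (1 + x) * Y ≤ 2 * Y := mul_le_mul_of_nonneg_right (by linarith) hY0.le
  have h10 : 3 * m ≤ Y / 8 := by
    have h11 : 2 * m * (3 * m) ≤ 2 * m * (Y / 8) := by
      have e1 : 2 * m * (Y / 8) = D / 8 := by rw [← hY]; ring
      rw [e1]
      have h12 : m ^ 2 * 96 ≤ m ^ 2 * (96 * L ^ 2) := by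
        apply mul_le_mul_of_nonneg_left _ (by positivity)
        nlinarith
      nlinarith
    exact le_of_mul_le_mul_left h11 (by linarith)
  have h13 : b * Q ≤ E / 16 * Q := mul_le_mul_of_nonneg_right hbE hQ0.le
  have h14 : 0 < E * Q := by
    have : 0 < E := by linarith
    positivity
  have h15 : Y / 8 ≤ b / 128 * Q := by linarith
  linarith

set_option maxHeartbeats 2000000 in
/-- `F`-free graphs -/
theorem ff_main {W : Type} (F : SimpleGraph W) (C : ℝ) (hC : 0 ≤ C) (hGB : GB F C)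
    (ε : ℝ) (hε : 0 < ε) : ∃ D₀ : ℕ, ∀ (V : Type) [Fintype V]
    (G : SimpleGraph V) [DecidableRel G.Adj] (D p : ℕ), D₀ ≤ D → (∀ v, G.degree v ≤ D) →
    F.Free G → (C / 2 + ε) * (D / Real.log D) ≤ p → TotLab G p (D + 2 * p - 1) := by
  obtain ⟨e, he⟩ : ∃ e : ℝ, e = min ε 1 := ⟨_, rfl⟩
  have he0 : 0 < e := by rw [he]; exact lt_min hε (by norm_num)
  have heε : e ≤ ε := by rw [he]; exact min_le_left _ _
  have he1 : e ≤ 1 := by rw [he]; exact min_le_right _ _
  -- the small parameter `b`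
  obtain ⟨b, hb⟩ : ∃ b : ℝ, b = e / (16 * (C + 1)) := ⟨_, rfl⟩
  have hC1 : 0 < C + 1 := by linarith
  have hb0 : 0 < b := by rw [hb]; positivity
  have hbC : b * (C + 1) = e / 16 := by rw [hb]; field_simp
  have hbe : b ≤ e / 16 := by
    rw [← hbC]; nlinarith
  have hb1 : b ≤ 1 / 16 := by linarith
  obtain ⟨y₀, hy₀⟩ := hGB (e / 8) (by positivity)
  have hB0 : (0 : ℝ) < 10 ^ 4 / b ^ 2 := by positivity
  have h1 := (isLittleO_pow_exp_pos_mul_atTop 6 (show 0 < b / 2 by positivity)).bound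
    (show (0 : ℝ) < (10 ^ 4 / b ^ 2)⁻¹ by positivity)
  have h2 : Filter.Tendsto (fun n : ℕ => Real.log (n : ℝ)) Filter.atTop Filter.atTop :=
    Real.tendsto_log_atTop.comp tendsto_natCast_atTop_atTop
  have h3 := h2.eventually (h1.and ((Filter.eventually_ge_atTop (10 ^ 4 / b ^ 2 : ℝ)).and
    (Filter.eventually_ge_atTop y₀)))
  obtain ⟨N, hN⟩ := Filter.eventually_atTop.1 h3
  refine ⟨max N 1, ?_⟩
  intro V _ G _ D p hD hdeg hfree hp
  classical
  obtain ⟨h4, hB1, hyL⟩ := hN D (le_trans (le_max_left _ _) hD)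
  have hD1 : 1 ≤ D := le_trans (le_max_right _ _) hD
  have hD1r : (1 : ℝ) ≤ D := by exact_mod_cast hD1
  have hD0 : (0 : ℝ) < D := by linarith
  obtain ⟨L, hL⟩ : ∃ L : ℝ, L = Real.log (D : ℝ) := ⟨_, rfl⟩
  rw [← hL] at h4 hB1 hp hyL
  have hL0 : 0 < L := lt_of_lt_of_le hB0 hB1
  have hexpL : Real.exp L = D := by rw [hL]; exact Real.exp_log hD0
  have hB2' : 10 ^ 4 / b ^ 2 * L ^ 6 ≤ Real.exp (b / 2 * L) := by
    have h5 : L ^ 6 ≤ (10 ^ 4 / b ^ 2)⁻¹ * Real.exp (b / 2 * L) := by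
      simpa [abs_of_nonneg (Real.exp_pos (b / 2 * L)).le, abs_of_nonneg hL0.le] using h4
    have h6 := mul_le_mul_of_nonneg_left h5 hB0.le
    rwa [← mul_assoc, mul_inv_cancel₀ hB0.ne', one_mul] at h6
  have hB2 : 10 ^ 4 / b ^ 2 * L ^ 6 ≤ D := by
    refine hB2'.trans ?_
    rw [← hexpL]
    apply Real.exp_le_exp.2
    have : b / 2 * L ≤ 1 * L := mul_le_mul_of_nonneg_right (by linarith) hL0.le
    linarith
  obtain ⟨M, hM⟩ : ∃ M : ℝ, M = 8 / b := ⟨_, rfl⟩
  have hM0 : 0 < M := by rw [hM]; positivity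
  obtain ⟨m, hm⟩ : ∃ m : ℕ, m = ⌈M * L⌉₊ := ⟨_, rfl⟩
  have hm1 : M * L ≤ m := by rw [hm]; exact Nat.le_ceil _
  have hm2 : (m : ℝ) ≤ M * L + 1 := by rw [hm]; exact (Nat.ceil_lt_add_one (by positivity)).le
  obtain ⟨x, hx⟩ : ∃ x : ℝ, x = 1 / L ^ 2 := ⟨_, rfl⟩
  obtain ⟨hL4, hm0, hm3, h96, heL, hem, hxD, hx0, hx1, hYe, h24⟩ :=
    tf_num hb0 (by linarith) hM hB1 hB2 hm1 hm2 hx
  obtain ⟨Y, hY'⟩ : ∃ Y : ℝ, Y = D / (2 * m) := ⟨_, rfl⟩
  rw [← hY'] at hYe
  have hY : 2 * m * Y = D := by rw [hY']; field_simp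
  have hY0 : 0 < Y := by rw [hY']; positivity
  have hm1' : (1 : ℝ) ≤ m := by
    have : 0 < m := by exact_mod_cast hm0
    exact_mod_cast this
  have hmN : 1 ≤ m := by exact_mod_cast hm1'
  have hL2 : 1 ≤ L ^ 2 := one_le_pow₀ (by linarith)
  have h8 : 8 * (m : ℝ) ≤ D := by
    refine le_trans ?_ h96
    have h9 : (m : ℝ) * 8 ≤ m * (96 * L ^ 2 * m) := by
      apply mul_le_mul_of_nonneg_left _ hm0.le
      have h10 : 1 * 1 ≤ L ^ 2 * (m : ℝ) := mul_le_mul hL2 hm1' (by norm_num) (by positivity)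
      linarith
    linarith [h9, show (m : ℝ) * (96 * L ^ 2 * m) = 96 * L ^ 2 * (m : ℝ) ^ 2 by ring]
  have hcast : ((2 * m : ℕ) : ℝ) = 2 * (m : ℝ) := by push_cast; ring
  have hexp := tf_exp hL hD0 hD1r hm0 hL0 hx h24 h8
  obtain ⟨t, ht1, ht2⟩ := partition G (2 * m) D (by omega) hD1 hdeg x hx0.le hx1 (by
    rw [hcast]
    push_cast
    exact hexp)
  rw [hcast] at ht2
  obtain ⟨w, hw⟩ : ∃ w : ℕ, w = ⌊(1 + x) * D / (2 * (m : ℝ))⌋₊ := ⟨_, rfl⟩
  rw [← hw] at ht2
  have hYw : (1 + x) * D / (2 * (m : ℝ)) = (1 + x) * Y := by rw [hY']; ring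
  rw [hYw] at hw
  have hwY : (w : ℝ) ≤ (1 + x) * Y := by rw [hw]; exact Nat.floor_le (by positivity)
  have hYw2 : Y ≤ w + 1 := by
    have h9 : (1 + x) * Y ≤ w + 1 := by rw [hw]; exact (Nat.lt_floor_add_one _).le
    have h10 : 0 < x * Y := by positivity
    linarith
  have hxb : x ≤ b := by
    rw [hx, div_le_iff₀ (by positivity)]
    have h9 : 16 * L ≤ b * L * L := mul_le_mul_of_nonneg_right heL hL0.le
    have h10 : b * L ^ 2 = b * L * L := by ring
    rw [h10]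
    linarith
  have hYL : 100 * L ≤ Y := by
    have : b * Y ≤ 1 * Y := mul_le_mul_of_nonneg_right (by linarith) hY0.le
    linarith
  -- `y`, its logarithm
  obtain ⟨y, hy⟩ : ∃ y : ℝ, y = (1 + x) * Y := ⟨_, rfl⟩
  have hyY : Y ≤ y := by
    rw [hy]
    have : 0 < x * Y := by positivity
    linarith
  have hy0 : 0 < y := lt_of_lt_of_le hY0 hyY
  have hlogy : (1 - b) * L ≤ Real.log y := by
    rw [Real.le_log_iff_exp_le hy0]
    refine le_trans ?_ hyY
    rw [hY', le_div_iff₀ (by positivity)]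
    have h9 : Real.exp ((1 - b) * L) * Real.exp (b * L) = D := by
      rw [← Real.exp_add, ← hexpL]
      congr 1; ring
    rw [← h9]
    have h10 : (2 * m : ℝ) ≤ Real.exp (b * L) := by
      have h11 : Real.exp (b / 2 * L) ≤ Real.exp (b * L) := by
        apply Real.exp_le_exp.2
        have : 0 < b * L := by positivity
        linarith
      refine le_trans ?_ (hB2'.trans h11)
      have h12 : (2 * m : ℝ) ≤ L ^ 2 := by linarith
      have h13 : L ^ 2 ≤ L ^ 6 := pow_le_pow_right₀ (by linarith) (by norm_num)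
      have hB4 : (1 : ℝ) ≤ 10 ^ 4 / b ^ 2 := by
        rw [le_div_iff₀ (by positivity)]
        have : b ^ 2 ≤ 1 := pow_le_one₀ hb0.le (by linarith)
        linarith
      have h14 : 1 * L ^ 6 ≤ 10 ^ 4 / b ^ 2 * L ^ 6 := by
        apply mul_le_mul_of_nonneg_right hB4
        positivity
      linarith
    exact mul_le_mul_of_nonneg_left h10 (Real.exp_pos _).le
  have hlog0 : 0 < Real.log y := lt_of_lt_of_le (by
    have : 0 < 1 - b := by linarith
    positivity) hlogy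
  have hyy0 : 0 ≤ y / Real.log y := by positivity
  obtain ⟨k, hk⟩ : ∃ k : ℕ, k = ⌊(C + e / 8) * (y / Real.log y)⌋₊ + 1 := ⟨_, rfl⟩
  have hyl : y / Real.log y ≤ (1 + 4 * b) * (Y / L) := by
    rw [div_le_iff₀ hlog0]
    have h9 : (1 + 4 * b) * (Y / L) * ((1 - b) * L) ≤ (1 + 4 * b) * (Y / L) * Real.log y :=
      mul_le_mul_of_nonneg_left hlogy (by positivity)
    refine le_trans ?_ h9
    have h10 : (1 + 4 * b) * (Y / L) * ((1 - b) * L) = (1 + 4 * b) * (1 - b) * Y := by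
      field_simp
    rw [h10, hy]
    apply mul_le_mul_of_nonneg_right _ hY0.le
    have h11 : b * b ≤ 1 / 16 * b := mul_le_mul_of_nonneg_right hb1 hb0.le
    have h12 : (1 + 4 * b) * (1 - b) = 1 + 3 * b - 4 * (b * b) := by ring
    rw [h12]
    linarith
  have hk2 : (k : ℝ) ≤ (C + e / 2) * Y / L + 1 := by
    rw [hk]
    push_cast
    have h9 : (⌊(C + e / 8) * (y / Real.log y)⌋₊ : ℝ) ≤ (C + e / 8) * (y / Real.log y) :=
      Nat.floor_le (by positivity)
    have h10 : (C + e / 8) * (y / Real.log y) ≤ (C + e / 8) * ((1 + 4 * b) * (Y / L)) :=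
      mul_le_mul_of_nonneg_left hyl (by positivity)
    have h11 : (C + e / 8) * (1 + 4 * b) ≤ C + e / 2 := by
      have h12 : 4 * b * (C + e / 8) ≤ 4 * b * (C + 1) :=
        mul_le_mul_of_nonneg_left (by linarith) (by positivity)
      have h13 : 4 * b * (C + 1) = e / 4 := by
        have : 4 * b * (C + 1) = 4 * (b * (C + 1)) := by ring
        rw [this, hbC]; ring
      have h14 : (C + e / 8) * (1 + 4 * b) = C + e / 8 + 4 * b * (C + e / 8) := by ring
      rw [h14]; linarith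
    have h15 : (C + e / 8) * ((1 + 4 * b) * (Y / L)) ≤ (C + e / 2) * (Y / L) := by
      rw [← mul_assoc]
      exact mul_le_mul_of_nonneg_right h11 (by positivity)
    have h16 : (C + e / 2) * (Y / L) = (C + e / 2) * Y / L := by ring
    linarith
  have hCL : 100 * (C + e / 2) ≤ L := by
    refine le_trans ?_ hB1
    rw [le_div_iff₀ (by positivity)]
    have h9 : 100 * (C + e / 2) ≤ 100 * (C + 1) := by linarith
    have h10 : 100 * (C + e / 2) * b ^ 2 ≤ 100 * (C + 1) * b ^ 2 :=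
      mul_le_mul_of_nonneg_right h9 (by positivity)
    have h11 : 100 * (C + 1) * b ^ 2 = 100 * (b * (C + 1)) * b := by ring
    rw [h11, hbC] at h10
    have h12 : 100 * (e / 16) * b ≤ 100 * (1 / 16) * 1 := by
      apply mul_le_mul _ (by linarith) hb0.le (by norm_num)
      linarith
    linarith
  have hkN : k ≤ w + 1 := by
    have h9 : (C + e / 2) * Y / L ≤ Y / 100 := by
      rw [div_le_iff₀ hL0]
      have : 100 * (C + e / 2) * Y ≤ L * Y := mul_le_mul_of_nonneg_right hCL hY0.le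
      linarith
    have h10 : (k : ℝ) ≤ w + 1 := by linarith
    exact_mod_cast h10
  have hyy : y₀ ≤ y := by linarith
  obtain ⟨c, hc1, hc2⟩ := ff_colour F G hfree (c' := C + e / 8) (y := y) (by positivity) hyy0
    (by
      intro P hP1 hP2
      exact hy₀ y hyy V G P hP1 (by
        intro v hv
        have := hP2 v hv
        convert this using 3)) t w (by rw [hy]; exact hwY) ht2
  rw [← hk] at hc1
  have hDL : 0 < (D : ℝ) / L := by positivity
  have hp2 : (C / 2 + e) * (D / L) ≤ p := by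
    refine le_trans ?_ hp
    exact mul_le_mul_of_nonneg_right (by linarith) hDL.le
  have hH3 := ff_H3 (C := C) (E := e) hb0 hL4 hm1' h96 heL hem hxD hx1 hY hY0 hwY hbe hk2 hp2
  have hp1 : 1 ≤ p := by
    have : (0 : ℝ) < p := lt_of_lt_of_le (by positivity) hp2
    exact_mod_cast this
  refine structB G m 0 w k p D (by omega) hp1 t ht1 ht2 c hc1 hc2 hkN ?_ ?_ ?_ ?_
  · have h9 : ((m : ℝ) - 1 - 0) * k ≤ ((m : ℝ) - 1 - 2 * 0) * (w + 1) := by
      have : (k : ℝ) ≤ w + 1 := by exact_mod_cast hkN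
      have := mul_le_mul_of_nonneg_left this (by linarith : (0 : ℝ) ≤ (m : ℝ) - 1)
      linarith
    exact_mod_cast h9
  · have h9 := ff_H2 hL4 hm1' hm3 h96 hxD hY hY0 hwY hYw2 hCL hk2
    exact_mod_cast h9
  · exact_mod_cast hH3
  · have h9 : (2 * (0 : ℝ) + 1) * (w + 1) ≤ p - 1 + (0 + 1) * k := by
      have h10 : (1 + x) * Y ≤ 2 * Y := mul_le_mul_of_nonneg_right (by linarith) hY0.le
      -- 2 Y ≤ b / 8 * (D / L)
      have h11 : 2 * Y ≤ b / 8 * (D / L) := by
        have h12 : m * (2 * Y) ≤ m * (b / 8 * (D / L)) := by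
          have e1 : (m : ℝ) * (2 * Y) = (D / L) * L := by
            rw [div_mul_cancel₀ _ hL0.ne', ← hY]; ring
          have e2 : m * (b / 8 * (D / L)) = (D / L) * (b * m / 8) := by ring
          rw [e1, e2]
          exact mul_le_mul_of_nonneg_left (by linarith) hDL.le
        exact le_of_mul_le_mul_left h12 hm0
      have h13 : b / 8 * (D / L) ≤ e / 128 * (D / L) :=
        mul_le_mul_of_nonneg_right (by linarith) hDL.le
      have h14 : e * (D / L) ≤ p := by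
        refine le_trans ?_ hp2
        exact mul_le_mul_of_nonneg_right (by linarith) hDL.le
      have h15 : (100 : ℝ) ≤ Y := by linarith
      have h16 : (0 : ℝ) ≤ k := by positivity
      linarith
    exact_mod_cast h9

end Pool.Agent.R143.HYF
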