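import Mathlib
import Pool.Agent.R143.HYF.Main

set_option autoImplicit false

/-!
# The labelling theorem for graphs whose types have good colourings
-/

namespace Pool.Agent.R143.HYF

open Finset Pool.Agent.H238R2.HY Pool.Agent.TH104.HY Pool.Agent.Helper311.Glue

set_option maxHeartbeats 2000000 in
/-- There is a partition of the vertices into types such that a colouring of the types gives a
labelling. -/
theorem core (b : ℝ) (hb0 : 0 < b) (hb1 : b ≤ 1 / 16) : ∃ D₀ : ℕ, ∀ (V : Type) [Fintype V]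
    (G : SimpleGraph V) [DecidableRel G.Adj] (D : ℕ), D₀ ≤ D → (∀ v, G.degree v ≤ D) →
    ∃ (t : V → ℕ) (w : ℕ) (Y : ℝ), 100 * Real.log D ≤ Y ∧ (w : ℝ) ≤ (1 + b) * Y ∧ Y ≤ w + 1 ∧
      (1 - b) * Real.log D ≤ Real.log Y ∧ 2 * Y ≤ D ∧
      (D : ℝ) ≤ Y * Real.log D ^ 2 ∧
      (∀ v y, ((G.neighborFinset v).filter (fun u => t u = y)).card ≤ w) ∧
      ∀ (C : ℝ) (p k : ℕ) (c : V → ℕ), 0 ≤ C → 100 * (C + 8 * b) ≤ Real.log D →
        (k : ℝ) ≤ (C + 8 * b) * Y / Real.log D + 1 → (∀ v, c v < k) →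
        (∀ u v, G.Adj u v → t u = t v → c u ≠ c v) →
        (C / 2 + 16 * b) * (D / Real.log D) ≤ p → TotLab G p (D + 2 * p - 1) := by
  have hB0 : (0 : ℝ) < 10 ^ 4 / b ^ 2 := by positivity
  have h1 := (isLittleO_pow_exp_pos_mul_atTop 6 (show 0 < b / 2 by positivity)).bound
    (show (0 : ℝ) < (10 ^ 4 / b ^ 2)⁻¹ by positivity)
  have h2 : Filter.Tendsto (fun n : ℕ => Real.log (n : ℝ)) Filter.atTop Filter.atTop :=
    Real.tendsto_log_atTop.comp tendsto_natCast_atTop_atTop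
  have h3 := h2.eventually (h1.and (Filter.eventually_ge_atTop (10 ^ 4 / b ^ 2 : ℝ)))
  obtain ⟨N, hN⟩ := Filter.eventually_atTop.1 h3
  refine ⟨max N 1, ?_⟩
  intro V _ G _ D hD hdeg
  classical
  obtain ⟨h4, hB1⟩ := hN D (le_trans (le_max_left _ _) hD)
  have hD1 : 1 ≤ D := le_trans (le_max_right _ _) hD
  have hD1r : (1 : ℝ) ≤ D := by exact_mod_cast hD1
  have hD0 : (0 : ℝ) < D := by linarith
  obtain ⟨L, hL⟩ : ∃ L : ℝ, L = Real.log (D : ℝ) := ⟨_, rfl⟩
  rw [← hL] at h4 hB1 ⊢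
  have hL0 : 0 < L := lt_of_lt_of_le hB0 hB1
  have hexpL : Real.exp L = D := by rw [hL]; exact Real.exp_log hD0
  have hB2' : 10 ^ 4 / b ^ 2 * L ^ 6 ≤ Real.exp (b / 2 * L) := by
    have h5 : L ^ 6 ≤ (10 ^ 4 / b ^ 2)⁻¹ * Real.exp (b / 2 * L) := by
      simpa [abs_of_nonneg (Real.exp_pos (b / 2 * L)).le, abs_of_nonneg hL0.le] using h4
    have h6 := mul_le_mul_of_nonneg_left h5 hB0.le
    rwa [← mul_assoc, mul_inv_cancel₀ hB0.ne', one_mul] at h6
  have hB2 : 10 ^ 4 / b ^ 2 * L ^ 6 ≤ D := by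
    refine hB2'.trans ?_
    rw [← hexpL]
    apply Real.exp_le_exp.2
    have : b / 2 * L ≤ 1 * L := mul_le_mul_of_nonneg_right (by linarith) hL0.le
    linarith
  obtain ⟨M, hM⟩ : ∃ M : ℝ, M = 8 / b := ⟨_, rfl⟩
  have hM0 : 0 < M := by rw [hM]; positivity
  obtain ⟨m, hm⟩ : ∃ m : ℕ, m = ⌈M * L⌉₊ := ⟨_, rfl⟩
  have hm1 : M * L ≤ m := by rw [hm]; exact Nat.le_ceil _
  have hm2 : (m : ℝ) ≤ M * L + 1 := by rw [hm]; exact (Nat.ceil_lt_add_one (by positivity)).le
  obtain ⟨x, hx⟩ : ∃ x : ℝ, x = 1 / L ^ 2 := ⟨_, rfl⟩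
  obtain ⟨hL4, hm0, hm3, h96, heL, hem, hxD, hx0, hx1, hYe, h24⟩ :=
    tf_num hb0 (by linarith) hM hB1 hB2 hm1 hm2 hx
  obtain ⟨Y, hY'⟩ : ∃ Y : ℝ, Y = D / (2 * m) := ⟨_, rfl⟩
  rw [← hY'] at hYe
  have hY : 2 * m * Y = D := by rw [hY']; field_simp
  have hY0 : 0 < Y := by rw [hY']; positivity
  have hm1' : (1 : ℝ) ≤ m := by
    have : 0 < m := by exact_mod_cast hm0
    exact_mod_cast this
  have hmN : 1 ≤ m := by exact_mod_cast hm1'
  have hL2 : 1 ≤ L ^ 2 := one_le_pow₀ (by linarith)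
  have h8 : 8 * (m : ℝ) ≤ D := by
    refine le_trans ?_ h96
    have h9 : (m : ℝ) * 8 ≤ m * (96 * L ^ 2 * m) := by
      apply mul_le_mul_of_nonneg_left _ hm0.le
      have h10 : 1 * 1 ≤ L ^ 2 * (m : ℝ) := mul_le_mul hL2 hm1' (by norm_num) (by positivity)
      linarith
    linarith [h9, show (m : ℝ) * (96 * L ^ 2 * m) = 96 * L ^ 2 * (m : ℝ) ^ 2 by ring]
  have hcast : ((2 * m : ℕ) : ℝ) = 2 * (m : ℝ) := by push_cast; ring
  have hexp := tf_exp hL hD0 hD1r hm0 hL0 hx h24 h8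
  obtain ⟨t, ht1, ht2⟩ := partition G (2 * m) D (by omega) hD1 hdeg x hx0.le hx1 (by
    rw [hcast]
    push_cast
    exact hexp)
  rw [hcast] at ht2
  obtain ⟨w, hw⟩ : ∃ w : ℕ, w = ⌊(1 + x) * D / (2 * (m : ℝ))⌋₊ := ⟨_, rfl⟩
  rw [← hw] at ht2
  have hYw : (1 + x) * D / (2 * (m : ℝ)) = (1 + x) * Y := by rw [hY']; ring
  rw [hYw] at hw
  have hwY : (w : ℝ) ≤ (1 + x) * Y := by rw [hw]; exact Nat.floor_le (by positivity)
  have hYw2 : Y ≤ w + 1 := by
    have h9 : (1 + x) * Y ≤ w + 1 := by rw [hw]; exact (Nat.lt_floor_add_one _).le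
    have h10 : 0 < x * Y := by positivity
    linarith
  have hxb : x ≤ b := by
    rw [hx, div_le_iff₀ (by positivity)]
    have h9 : 16 * L ≤ b * L * L := mul_le_mul_of_nonneg_right heL hL0.le
    have h10 : b * L ^ 2 = b * L * L := by ring
    rw [h10]
    linarith
  have hYL : 100 * L ≤ Y := by
    have : b * Y ≤ 1 * Y := mul_le_mul_of_nonneg_right (by linarith) hY0.le
    linarith
  have h2m : (2 * m : ℝ) ≤ L ^ 2 := by linarith
  have hlogY : (1 - b) * L ≤ Real.log Y := by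
    rw [Real.le_log_iff_exp_le hY0, hY', le_div_iff₀ (by positivity)]
    have h9 : Real.exp ((1 - b) * L) * Real.exp (b * L) = D := by
      rw [← Real.exp_add, ← hexpL]
      congr 1; ring
    rw [← h9]
    have h10 : (2 * m : ℝ) ≤ Real.exp (b * L) := by
      have h11 : Real.exp (b / 2 * L) ≤ Real.exp (b * L) := by
        apply Real.exp_le_exp.2
        have : 0 < b * L := by positivity
        linarith
      refine le_trans ?_ (hB2'.trans h11)
      have h13 : L ^ 2 ≤ L ^ 6 := pow_le_pow_right₀ (by linarith) (by norm_num)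
      have hB4 : (1 : ℝ) ≤ 10 ^ 4 / b ^ 2 := by
        rw [le_div_iff₀ (by positivity)]
        have : b ^ 2 ≤ 1 := pow_le_one₀ hb0.le (by linarith)
        linarith
      have h14 : 1 * L ^ 6 ≤ 10 ^ 4 / b ^ 2 * L ^ 6 := by
        apply mul_le_mul_of_nonneg_right hB4
        positivity
      linarith
    exact mul_le_mul_of_nonneg_left h10 (Real.exp_pos _).le
  have hYD : 2 * Y ≤ D := by
    rw [← hY]
    have : 1 * Y ≤ m * Y := mul_le_mul_of_nonneg_right hm1' hY0.le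
    linarith
  refine ⟨t, w, Y, hYL, ?_, hYw2, hlogY, hYD, ?_, ht2, ?_⟩
  · refine hwY.trans (mul_le_mul_of_nonneg_right (by linarith) hY0.le)
  · rw [← hY]
    have := mul_le_mul_of_nonneg_right h2m hY0.le
    linarith
  intro C p k c hC hCL hk2 hc1 hc2 hp
  have hkN : k ≤ w + 1 := by
    have h9 : (C + 8 * b) * Y / L ≤ Y / 100 := by
      rw [div_le_iff₀ hL0]
      have : 100 * (C + 8 * b) * Y ≤ L * Y := mul_le_mul_of_nonneg_right hCL hY0.le
      linarith
    have h10 : (k : ℝ) ≤ w + 1 := by linarith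
    exact_mod_cast h10
  have hDL : 0 < (D : ℝ) / L := by positivity
  have hk2' : (k : ℝ) ≤ (C + 16 * b / 2) * Y / L + 1 := by
    have : 16 * b / 2 = 8 * b := by ring
    rw [this]; exact hk2
  have hH3 := ff_H3 (C := C) (E := 16 * b) (k := (k : ℝ)) hb0 hL4 hm1' h96 heL hem hxD hx1 hY hY0
    hwY (by linarith) hk2' hp
  have hp1 : 1 ≤ p := by
    have : (0 : ℝ) < p := lt_of_lt_of_le (by positivity) hp
    exact_mod_cast this
  refine structB G m 0 w k p D (by omega) hp1 t ht1 ht2 c hc1 hc2 hkN ?_ ?_ ?_ ?_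
  · have h9 : ((m : ℝ) - 1 - 0) * k ≤ ((m : ℝ) - 1 - 2 * 0) * (w + 1) := by
      have : (k : ℝ) ≤ w + 1 := by exact_mod_cast hkN
      have := mul_le_mul_of_nonneg_left this (by linarith : (0 : ℝ) ≤ (m : ℝ) - 1)
      linarith
    exact_mod_cast h9
  · have h9 := ff_H2 hL4 hm1' hm3 h96 hxD hY hY0 hwY hYw2 hCL hk2
    exact_mod_cast h9
  · exact_mod_cast hH3
  · have h9 : (2 * (0 : ℝ) + 1) * (w + 1) ≤ p - 1 + (0 + 1) * k := by
      have h10 : (1 + x) * Y ≤ 2 * Y := mul_le_mul_of_nonneg_right (by linarith) hY0.le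
      have h11 : 2 * Y ≤ b / 8 * (D / L) := by
        have h12 : m * (2 * Y) ≤ m * (b / 8 * (D / L)) := by
          have e1 : (m : ℝ) * (2 * Y) = (D / L) * L := by
            rw [div_mul_cancel₀ _ hL0.ne', ← hY]; ring
          have e2 : m * (b / 8 * (D / L)) = (D / L) * (b * m / 8) := by ring
          rw [e1, e2]
          exact mul_le_mul_of_nonneg_left (by linarith) hDL.le
        exact le_of_mul_le_mul_left h12 hm0
      have h14 : 16 * b * (D / L) ≤ p := by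
        refine le_trans ?_ hp
        exact mul_le_mul_of_nonneg_right (by linarith) hDL.le
      have h15 : (100 : ℝ) ≤ Y := by linarith
      have h16 : (0 : ℝ) ≤ k := by positivity
      have h17 : 0 < b * (D / L) := by positivity
      linarith
    exact_mod_cast h9

end Pool.Agent.R143.HYF
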