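import Mathlib
import Pool.Agent.R143.HYF.Clique
import Pool.Agent.R143.JM.Frac

set_option autoImplicit false

/-!
# The Havet-Yu conjecture for graphs with neighbourhoods of small fractional chromatic number
-/

namespace Pool.Agent.R143.HYF

open Finset Pool.Agent.H238R2.HY Pool.Agent.TH104.HY Pool.Agent.Helper311.Glue
open Pool.Agent.R143.JM (FracNbr half_le_K)

/-- graphs with neighbourhoods of small fractional chromatic number -/
theorem frac_main (ε : ℝ) (hε : 0 < ε) : ∃ D₀ : ℕ, ∀ (V : Type)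
    [Fintype V] (G : SimpleGraph V) [DecidableRel G.Adj] (D p : ℕ) (δ ρ : ℝ), D₀ ≤ D →
    0 < δ → δ < 1 → 1 ≤ ρ →
    400 * (Real.log (2 * ρ / δ) / (1 - δ)) ≤ Real.log D →
    (∀ v, G.degree v ≤ D) → (∀ v, FracNbr G ρ v) →
    (1 / 2 + ε) * (Real.log (2 * ρ / δ) / (1 - δ)) * (D / Real.log D) ≤ p →
    TotLab G p (D + 2 * p - 1) := by
  obtain ⟨e, he⟩ : ∃ e : ℝ, e = min ε 1 := ⟨_, rfl⟩
  have he0 : 0 < e := by rw [he]; exact lt_min hε (by norm_num)
  have heε : e ≤ ε := by rw [he]; exact min_le_left _ _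
  have he1 : e ≤ 1 := by rw [he]; exact min_le_right _ _
  obtain ⟨b, hb⟩ : ∃ b : ℝ, b = e / 64 := ⟨_, rfl⟩
  have hb0 : 0 < b := by rw [hb]; positivity
  have hb1 : b ≤ 1 / 16 := by linarith
  obtain ⟨D₁, hcore⟩ := core b hb0 hb1
  obtain ⟨Δ₀, hcol⟩ := Pool.Agent.R143.JM.col_frac (e / 2) (by positivity)
  have hlogtend : Filter.Tendsto (fun n : ℕ => Real.log (n : ℝ)) Filter.atTop Filter.atTop :=
    Real.tendsto_log_atTop.comp tendsto_natCast_atTop_atTop
  have E2 := hlogtend.eventually_ge_atTop (max (1 / b) (max 100 (Δ₀ : ℝ)))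
  obtain ⟨D₂, hD₂⟩ := Filter.eventually_atTop.1 E2
  refine ⟨max D₁ (max D₂ 1), ?_⟩
  intro V _ G _ D p δ ρ hD hδ hδ1 hρ hrL hdeg hfree hp
  classical
  have hK12 := half_le_K δ ρ hδ hδ1 hρ
  obtain ⟨K, hK⟩ : ∃ K : ℝ, K = Real.log (2 * ρ / δ) / (1 - δ) := ⟨_, rfl⟩
  rw [← hK] at hrL hp hK12
  have hK0 : 0 < K := by linarith
  obtain ⟨t, w, Y, hYL, hwY, hYw, hlogY, hYD, -, ht, hfin⟩ :=
    hcore V G D ((le_max_left _ _).trans hD) hdeg
  have e2 := hD₂ D ((le_max_left _ _).trans ((le_max_right _ _).trans hD))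
  have hD1 : 1 ≤ D := (le_max_right _ _).trans ((le_max_right _ _).trans hD)
  have hD0 : (0 : ℝ) < D := by exact_mod_cast hD1
  obtain ⟨L, hL⟩ : ∃ L : ℝ, L = Real.log (D : ℝ) := ⟨_, rfl⟩
  rw [← hL] at e2 hYL hlogY hfin hp hrL
  have hLb : 1 / b ≤ L := (le_max_left _ _).trans e2
  have hL100 : 100 ≤ L := (le_max_left _ _).trans ((le_max_right _ _).trans e2)
  have hLΔ : (Δ₀ : ℝ) ≤ L := (le_max_right _ _).trans ((le_max_right _ _).trans e2)
  have hL0 : 0 < L := by linarith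
  have hbL : 1 ≤ b * L := by
    rw [div_le_iff₀ hb0] at hLb; linarith
  have hY0 : 0 < Y := by linarith
  -- the degree bound for the colouring
  obtain ⟨Δ, hΔ⟩ : ∃ Δ : ℕ, Δ = ⌊(1 + b) * Y⌋₊ + 1 := ⟨_, rfl⟩
  have hwΔ : w ≤ Δ := by
    rw [hΔ]
    have : w ≤ ⌊(1 + b) * Y⌋₊ := Nat.le_floor hwY
    omega
  have hΔY : Y ≤ Δ := by
    have h1 : (1 + b) * Y < (⌊(1 + b) * Y⌋₊ : ℝ) + 1 := Nat.lt_floor_add_one _
    rw [hΔ]; push_cast
    have : 0 < b * Y := by positivity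
    linarith
  have hΔY2 : (Δ : ℝ) ≤ (1 + 2 * b) * Y := by
    have h1 : (⌊(1 + b) * Y⌋₊ : ℝ) ≤ (1 + b) * Y := Nat.floor_le (by positivity)
    rw [hΔ]; push_cast
    have h2 : b * (100 * L) ≤ b * Y := mul_le_mul_of_nonneg_left hYL hb0.le
    linarith
  have hΔ0 : (0 : ℝ) < Δ := by linarith
  have hlogΔ : (1 - b) * L ≤ Real.log Δ := hlogY.trans (Real.log_le_log hY0 hΔY)
  have hbL0 : 0 < (1 - b) * L := by
    have : 0 < 1 - b := by linarith
    positivity
  have hlogΔ0 : 0 < Real.log Δ := lt_of_lt_of_le hbL0 hlogΔ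
  have hΔΔ₀ : Δ₀ ≤ Δ := by
    have : (Δ₀ : ℝ) ≤ Δ := by linarith
    exact_mod_cast this
  obtain ⟨n, ⟨C⟩, hn⟩ := hcol Δ hΔΔ₀ δ ρ hδ hδ1 hρ V (inside G t) (by
    intro v N hN
    refine le_trans ?_ ((ht v (t v)).trans hwΔ)
    apply Finset.card_le_card
    intro u hu
    have := hN u hu
    rw [mem_filter, SimpleGraph.mem_neighborFinset]
    exact ⟨this.1, this.2.symm⟩) (fun v => (hfree v).anti (inside_le G t))
  rw [← hK] at hn
  refine hfin ((1 + e) * K) p n (fun v => (C v : ℕ)) (by positivity) ?_ ?_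
    (fun v => (C v).2) ?_ ?_
  · have h1 : (1 + e) * K ≤ 2 * K :=
      mul_le_mul_of_nonneg_right (by linarith) (by linarith)
    linarith
  · -- the number of colours
    have h1 : (Δ : ℝ) / Real.log Δ ≤ (1 + 4 * b) * (Y / L) := by
      rw [div_le_iff₀ hlogΔ0]
      have h3 : (1 + 4 * b) * (Y / L) * ((1 - b) * L) ≤
          (1 + 4 * b) * (Y / L) * Real.log Δ :=
        mul_le_mul_of_nonneg_left hlogΔ (by positivity)
      have h4 : (1 + 4 * b) * (Y / L) * ((1 - b) * L) =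
          ((1 + 4 * b) * (1 - b)) * Y := by field_simp
      rw [h4] at h3
      have h5 : 1 + 2 * b ≤ (1 + 4 * b) * (1 - b) := by
        have h6 : b * b ≤ 1 / 16 * b := mul_le_mul_of_nonneg_right hb1 hb0.le
        have h7 : (1 + 4 * b) * (1 - b) = 1 + 3 * b - 4 * (b * b) := by ring
        rw [h7]; linarith
      have h8 : (1 + 2 * b) * Y ≤ ((1 + 4 * b) * (1 - b)) * Y :=
        mul_le_mul_of_nonneg_right h5 hY0.le
      linarith
    have h9 : (1 + e / 2) * (1 + 4 * b) ≤ 1 + e := by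
      have h10 : (1 + e / 2) * (1 + 4 * b) = 1 + e / 2 + 4 * b + 2 * (e * b) := by ring
      have h11 : e * b ≤ 1 * b := mul_le_mul_of_nonneg_right he1 hb0.le
      rw [h10]
      linarith
    have h12 : (n : ℝ) ≤ (1 + e) * K * (Y / L) := by
      refine hn.trans ?_
      have h13 : (1 + e / 2) * K * ((Δ : ℝ) / Real.log Δ) ≤
          (1 + e / 2) * K * ((1 + 4 * b) * (Y / L)) :=
        mul_le_mul_of_nonneg_left h1 (by positivity)
      refine h13.trans ?_
      have h14 : (1 + e / 2) * K * ((1 + 4 * b) * (Y / L)) =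
          ((1 + e / 2) * (1 + 4 * b)) * (K * (Y / L)) := by ring
      rw [h14]
      have h15 := mul_le_mul_of_nonneg_right h9
        (show 0 ≤ K * (Y / L) by positivity)
      linarith
    refine h12.trans ?_
    have h14 : (1 + e) * K * (Y / L) = (1 + e) * K * Y / L := by ring
    rw [h14]
    have h15 : (1 + e) * K * Y / L ≤ ((1 + e) * K + 8 * b) * Y / L := by
      apply div_le_div_of_nonneg_right _ hL0.le
      exact mul_le_mul_of_nonneg_right (by linarith) hY0.le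
    linarith
  · intro u v huv htt h
    exact C.valid (show (inside G t).Adj u v from ⟨huv, htt⟩) (Fin.ext h)
  · refine le_trans ?_ hp
    have h1 : (1 + e) * K / 2 + 16 * b ≤ (1 / 2 + ε) * K := by
      have h2 : e * (1 / 2) ≤ e * K := mul_le_mul_of_nonneg_left hK12 he0.le
      have h3 : e * K ≤ ε * K := mul_le_mul_of_nonneg_right heε hK0.le
      linarith
    exact mul_le_mul_of_nonneg_right h1 (by positivity)

end Pool.Agent.R143.HYF
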