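import Mathlib
import Pool.Agent.R143.HYF.Frac

set_option autoImplicit false

/-!
# The Havet-Yu conjecture for graphs with neighbourhoods of small fractional chromatic number

Let all neighbourhoods of `G` have fractional chromatic number at most `ρ` (for instance, let them
be `r`-colourable with `r = ρ`) and let `K = log (2 ρ / δ) / (1 - δ)`, `0 < δ < 1`. For maximum
degree at most `D` the conjecture holds for `p ≥ (1/2 + ε) K D / log D`, for all large `D` and
uniformly in `ρ`, as long as `400 K ≤ log D`. For large `r` the number `K` is about `log r`.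

Proof.  Local occupancy: let `Z` be the independence polynomial of a part `N` of a neighbourhood with
vertex weights at most `1` and total weight `Λ`. Some independent set has weight `Λ / ρ`, and so
`Λ ≤ 2 ρ log Z`. By Jensen's inequality the mean size of a random independent set is at least
`(1 - δ) log Z / log (2 ρ / δ)`. So the counting theorem for list colourings gives
`(1 + ε) K D / log D` colours.  The vertices are then distributed at random into types as in the
triangle-free case.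
-/

namespace Pool.Agent.Results.MP_b8729f_co.FractionalNeighbourhoods

/-- `TotalLabeling G p l`: the graph `G` has a `(p,1)`-total labeling of span `l`, that is, labels
`0, …, l` for the vertices (`fV`) and the edges (`fE`) such that adjacent vertices get different
labels, edges sharing an endpoint get different labels, and the labels of a vertex and of an
incident edge differ by at least `p`. -/
def TotalLabeling {V : Type} (G : SimpleGraph V) (p l : ℕ) : Prop :=
  ∃ (fV : V → ℕ) (fE : Sym2 V → ℕ),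
    (∀ v, fV v ≤ l) ∧ (∀ e ∈ G.edgeSet, fE e ≤ l) ∧
    (∀ u v, G.Adj u v → fV u ≠ fV v) ∧
    (∀ u v w, G.Adj u v → G.Adj u w → v ≠ w → fE s(u, v) ≠ fE s(u, w)) ∧
    (∀ u v, G.Adj u v → (p : ℤ) ≤ |(fV u : ℤ) - (fE s(u, v) : ℤ)|)

/-- The neighbourhood of `v` has fractional chromatic number at most `ρ`: there are `m ≥ 1`
independent sets such that every neighbour of `v` belongs to at least `m / ρ` of them. -/
def NbrFrac {V : Type} (G : SimpleGraph V) (ρ : ℝ) (v : V) : Prop :=
  ∃ (m : ℕ) (I : Fin m → Set V), 0 < m ∧ (∀ i, ∀ x ∈ I i, ∀ y ∈ I i, ¬ G.Adj x y) ∧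
    ∀ u, G.Adj v u → (m : ℝ) ≤ ρ * ({i | u ∈ I i}.ncard : ℝ)

theorem part1 (ε : ℝ) (hε : 0 < ε) : ∃ D₀ : ℕ, ∀ (V : Type) [Fintype V]
    (G : SimpleGraph V) (D p : ℕ) (δ ρ : ℝ), D₀ ≤ D → 0 < δ → δ < 1 → 1 ≤ ρ →
    400 * (Real.log (2 * ρ / δ) / (1 - δ)) ≤ Real.log D →
    (∀ v, (G.neighborSet v).ncard ≤ D) → (∀ v, NbrFrac G ρ v) →
    (1 / 2 + ε) * (Real.log (2 * ρ / δ) / (1 - δ)) * (D / Real.log D) ≤ p →
    TotalLabeling G p (D + 2 * p - 1) := by
  classical
  obtain ⟨D₀, h⟩ := Pool.Agent.R143.HYF.frac_main ε hε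
  refine ⟨D₀, ?_⟩
  intro V _ G D p δ ρ h1 h2 h3 h4 h5 h6 h7 h8
  refine h V G D p δ ρ h1 h2 h3 h4 h5 ?_ ?_ h8
  · intro v
    have := h6 v
    rwa [Set.ncard_eq_toFinset_card', ← SimpleGraph.neighborFinset_def,
      SimpleGraph.card_neighborFinset_eq_degree] at this
  · intro v
    obtain ⟨m, I, hm, hI, hc⟩ := h7 v
    refine ⟨m, fun i => (I i).toFinset, hm, ?_, ?_⟩
    · intro i x hx y hy
      exact hI i x (by simpa using hx) y (by simpa using hy)
    · intro u hu
      refine (hc u hu).trans (le_of_eq ?_)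
      congr 2
      rw [Set.ncard_eq_toFinset_card']
      congr 1
      ext i
      simp

theorem frac_of_colorable {V : Type} (G : SimpleGraph V) (v : V) (r : ℕ) (hr : 0 < r)
    (h : (G.induce (G.neighborSet v)).Colorable r) : NbrFrac G r v := by
  obtain ⟨C⟩ := h
  refine ⟨r, fun i => {u | ∃ h : G.Adj v u, C ⟨u, h⟩ = i}, hr, ?_, ?_⟩
  · rintro i x ⟨hx, hxi⟩ y ⟨hy, hyi⟩ hxy
    exact C.valid (v := ⟨x, hx⟩) (w := ⟨y, hy⟩) (by simpa using hxy) (hxi.trans hyi.symm)
  · intro u hu
    have h1 : {i | u ∈ {u | ∃ h : G.Adj v u, C ⟨u, h⟩ = i}} = {C ⟨u, hu⟩} := by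
      ext i
      simp only [Set.mem_ofPred_eq, Set.mem_singleton_iff]
      constructor
      · rintro ⟨_, h⟩
        exact h.symm
      · intro h
        exact ⟨hu, h.symm⟩
    rw [h1, Set.ncard_singleton]
    simp

/-- (1) For every `ε > 0` there is `D₀` such that for all `D ≥ D₀`, all `ρ ≥ 1` and `0 < δ < 1` with
`400 K ≤ log D`, `K = log (2 ρ / δ) / (1 - δ)`, and all `p ≥ (1/2 + ε) K D / log D`, every finite
graph with all degrees at most `D` whose neighbourhoods have fractional chromatic number at most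
`ρ` has a `(p,1)`-total labeling of span `D + 2 p - 1`.
(2) For every `ε > 0` there are `r₀` and `D₀` such that for all `D ≥ D₀`, all `r ≥ r₀` with
`800 log r ≤ log D` and all `p ≥ (1/2 + ε) log r D / log D`, every finite graph with all degrees at
most `D` and `r`-colourable neighbourhoods has a `(p,1)`-total labeling of span `D + 2 p - 1`. -/
theorem result :
    (∀ ε : ℝ, 0 < ε → ∃ D₀ : ℕ, ∀ (V : Type) [Fintype V]
      (G : SimpleGraph V) (D p : ℕ) (δ ρ : ℝ), D₀ ≤ D → 0 < δ → δ < 1 → 1 ≤ ρ →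
      400 * (Real.log (2 * ρ / δ) / (1 - δ)) ≤ Real.log D →
      (∀ v, (G.neighborSet v).ncard ≤ D) → (∀ v, NbrFrac G ρ v) →
      (1 / 2 + ε) * (Real.log (2 * ρ / δ) / (1 - δ)) * (D / Real.log D) ≤ p →
      TotalLabeling G p (D + 2 * p - 1)) ∧
    (∀ ε : ℝ, 0 < ε → ∃ r₀ D₀ : ℕ, ∀ (V : Type) [Fintype V]
      (G : SimpleGraph V) (D p r : ℕ), D₀ ≤ D → r₀ ≤ r →
      800 * Real.log r ≤ Real.log D →
      (∀ v, (G.neighborSet v).ncard ≤ D) →
      (∀ v, (G.induce (G.neighborSet v)).Colorable r) →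
      (1 / 2 + ε) * Real.log r * (D / Real.log D) ≤ p →
      TotalLabeling G p (D + 2 * p - 1)) := by
  refine ⟨part1, ?_⟩
  intro ε hε
  obtain ⟨D₀, hD₀⟩ := part1 (ε / 2) (by linarith)
  obtain ⟨δ, hδ⟩ : ∃ δ : ℝ, δ = ε / (2 * (1 + 2 * ε)) := ⟨_, rfl⟩
  have hδ0 : 0 < δ := by rw [hδ]; positivity
  have hδe : δ * (1 + 2 * ε) = ε / 2 := by rw [hδ]; field_simp
  have hδ1 : δ < 1 := by nlinarith
  obtain ⟨r₁, hr₁⟩ := Filter.eventually_atTop.1
    ((Real.tendsto_log_atTop.comp tendsto_natCast_atTop_atTop).eventually_ge_atTop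
      (2 * (1 + ε) * Real.log (2 / δ) / ε))
  refine ⟨max r₁ 1, max D₀ 1, ?_⟩
  intro V _ G D p r hD hr h800 hdeg hcol hp
  have hr1 : 1 ≤ r := (le_max_right _ _).trans hr
  have hr1' : (1 : ℝ) ≤ r := by exact_mod_cast hr1
  have hlr := hr₁ r ((le_max_left _ _).trans hr)
  simp only [Function.comp_apply] at hlr
  have hlr0 : 0 ≤ Real.log r := Real.log_nonneg hr1'
  have hD1 : 1 ≤ D := (le_max_right _ _).trans hD
  have hD1' : (1 : ℝ) ≤ D := by exact_mod_cast hD1
  have hlD0 : 0 ≤ Real.log D := Real.log_nonneg hD1'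
  have h1δ : 0 < 1 - δ := by linarith
  have hsplit : Real.log (2 * r / δ) = Real.log r + Real.log (2 / δ) := by
    rw [← Real.log_mul (by positivity) (by positivity)]
    congr 1; ring
  have hK : (1 + ε) * (Real.log (2 * r / δ) / (1 - δ)) ≤ (1 + 2 * ε) * Real.log r := by
    rw [mul_div_assoc', div_le_iff₀ h1δ, hsplit]
    rw [div_le_iff₀ hε] at hlr
    have h1 : (1 + 2 * ε) * Real.log r * (1 - δ) = (1 + 3 / 2 * ε) * Real.log r := by
      have : (1 + 2 * ε) * Real.log r * (1 - δ) =
        (1 + 2 * ε) * Real.log r - (δ * (1 + 2 * ε)) * Real.log r := by ring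
      rw [this, hδe]; ring
    rw [h1]
    linarith
  refine hD₀ V G D p δ r ((le_max_left _ _).trans hD) hδ0 hδ1 hr1' ?_ hdeg
    (fun v => frac_of_colorable G v r hr1 (hcol v)) ?_
  · have h2 : Real.log (2 * r / δ) / (1 - δ) ≤ 2 * Real.log r := by
      have h3 : (1 + ε) * (Real.log (2 * r / δ) / (1 - δ)) ≤ (1 + ε) * (2 * Real.log r) := by
        refine hK.trans ?_
        nlinarith
      exact le_of_mul_le_mul_left h3 (by linarith)
    linarith
  · refine le_trans ?_ hp
    apply mul_le_mul_of_nonneg_right _ (by positivity)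
    linarith

end Pool.Agent.Results.MP_b8729f_co.FractionalNeighbourhoods
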