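import Mathlib
import Pool.Agent.R143.HYF.Core
import Pool.Agent.R143.JM.Sparse

set_option autoImplicit false

/-!
# The Havet-Yu conjecture for locally sparse graphs
-/

namespace Pool.Agent.R143.HYF

open Finset Pool.Agent.H238R2.HY Pool.Agent.TH104.HY Pool.Agent.Helper311.Glue

/-- the edges inside the types -/
def insideS {V : Type} (G : SimpleGraph V) (t : V → ℕ) : SimpleGraph V where
  Adj u v := G.Adj u v ∧ t u = t v
  symm := ⟨fun _ _ h => ⟨h.1.symm, h.2.symm⟩⟩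
  loopless := ⟨fun u h => G.loopless.irrefl u h.1⟩

set_option maxHeartbeats 1000000 in
/-- locally sparse graphs -/
theorem sparse_main (ε : ℝ) (hε : 0 < ε) : ∃ A D₀ : ℕ, ∀ (V : Type)
    [Fintype V] (G : SimpleGraph V) [DecidableRel G.Adj] (D p : ℕ) (f : ℝ), D₀ ≤ D →
    Real.log D ^ A ≤ f → f ≤ (D : ℝ) ^ 2 →
    (∀ v, G.degree v ≤ D) →
    (∀ v, (({a : V × V | G.Adj v a.1 ∧ G.Adj v a.2 ∧ G.Adj a.1 a.2}.ncard : ℝ)) ≤
      (D : ℝ) ^ 2 / f) →
    (1 + ε) * (D / Real.log f) ≤ p →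
    TotLab G p (D + 2 * p - 1) := by
  obtain ⟨e, he⟩ : ∃ e : ℝ, e = min ε 1 := ⟨_, rfl⟩
  have he0 : 0 < e := by rw [he]; exact lt_min hε (by norm_num)
  have heε : e ≤ ε := by rw [he]; exact min_le_left _ _
  have he1 : e ≤ 1 := by rw [he]; exact min_le_right _ _
  obtain ⟨b, hb⟩ : ∃ b : ℝ, b = e / 64 := ⟨_, rfl⟩
  have hb0 : 0 < b := by rw [hb]; positivity
  have hb1 : b ≤ 1 / 16 := by linarith
  obtain ⟨D₁, hcore⟩ := core b hb0 hb1
  obtain ⟨f₀, hcol⟩ := Pool.Agent.R143.JM.col_sparse (e / 2) (by positivity) (by linarith)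
  obtain ⟨A, hA⟩ : ∃ A : ℕ, A = ⌈4 / b⌉₊ := ⟨_, rfl⟩
  have hAb : 4 / b ≤ A := by rw [hA]; exact Nat.le_ceil _
  have hAb' : 4 ≤ A * b := by rwa [div_le_iff₀ hb0] at hAb
  have hlogtend : Filter.Tendsto (fun n : ℕ => Real.log (n : ℝ)) Filter.atTop Filter.atTop :=
    Real.tendsto_log_atTop.comp tendsto_natCast_atTop_atTop
  have E1 := (Real.tendsto_log_atTop.comp hlogtend).eventually_ge_atTop (600 : ℝ)
  have E2 := hlogtend.eventually_ge_atTop (max (1 / b) (max 100 (max f₀ 1)))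
  obtain ⟨D₂, hD₂⟩ := Filter.eventually_atTop.1 (E1.and E2)
  refine ⟨A, max D₁ (max D₂ 1), ?_⟩
  intro V _ G _ D p f hD hfA hfD hdeg hsp hp
  classical
  obtain ⟨t, w, Y, hYL, hwY, hYw, hlogY, hYD, hDY, ht, hfin⟩ :=
    hcore V G D ((le_max_left _ _).trans hD) hdeg
  obtain ⟨e1, e2⟩ := hD₂ D ((le_max_left _ _).trans ((le_max_right _ _).trans hD))
  have hD1 : 1 ≤ D := (le_max_right _ _).trans ((le_max_right _ _).trans hD)
  have hD0 : (0 : ℝ) < D := by exact_mod_cast hD1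
  obtain ⟨L, hL⟩ : ∃ L : ℝ, L = Real.log (D : ℝ) := ⟨_, rfl⟩
  simp only [Function.comp] at e1
  rw [← hL] at e1 e2 hYL hlogY hfin hfA hDY
  have hLb : 1 / b ≤ L := (le_max_left _ _).trans e2
  have hL100 : 100 ≤ L := (le_max_left _ _).trans ((le_max_right _ _).trans e2)
  have hLf : f₀ ≤ L :=
    (le_max_left _ _).trans ((le_max_right _ _).trans ((le_max_right _ _).trans e2))
  have hL0 : 0 < L := by linarith
  have hbL : 1 ≤ b * L := by
    rw [div_le_iff₀ hb0] at hLb; linarith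
  -- the logarithm of `f`
  have hf0 : 0 < f := lt_of_lt_of_le (by positivity) hfA
  obtain ⟨F, hF⟩ : ∃ F : ℝ, F = Real.log f := ⟨_, rfl⟩
  rw [← hF] at hp
  have hAF : A * Real.log L ≤ F := by
    have := Real.log_le_log (by positivity) hfA
    rwa [Real.log_pow, ← hF] at this
  have hlogL0 : 0 < Real.log L := by linarith
  have h4F : 4 * Real.log L ≤ b * F := by
    have h1 := mul_le_mul_of_nonneg_left hAF hb0.le
    have h2 : 4 * Real.log L ≤ A * b * Real.log L := mul_le_mul_of_nonneg_right hAb' hlogL0.le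
    linarith
  have hF0 : 0 < F := by
    have : 0 < b * F := lt_of_lt_of_le (by positivity) h4F
    exact (mul_pos_iff_of_pos_left hb0).1 this
  have hFbig : 64 * Real.log L ≤ F := by
    have : b * F ≤ 1 / 16 * F := mul_le_mul_of_nonneg_right hb1 hF0.le
    linarith
  have hF600 : 600 ≤ F := by linarith
  have hFL : F ≤ 2 * L := by
    have := Real.log_le_log hf0 hfD
    rw [← hF, Real.log_pow, ← hL] at this
    push_cast at this
    exact this
  obtain ⟨f', hf'⟩ : ∃ f' : ℝ, f' = f / L ^ 4 := ⟨_, rfl⟩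
  have hf'0 : 0 < f' := by rw [hf']; positivity
  obtain ⟨F', hF'⟩ : ∃ F' : ℝ, F' = Real.log f' := ⟨_, rfl⟩
  have hF'F : F' = F - 4 * Real.log L := by
    rw [hF', hf', Real.log_div hf0.ne' (by positivity), Real.log_pow, ← hF]; push_cast; ring
  have hF'1 : (1 - b) * F ≤ F' := by rw [hF'F]; linarith
  have hF'0 : 0 < F' := lt_of_lt_of_le (by
    have : 0 < 1 - b := by linarith
    positivity) hF'1
  have hf'f₀ : f₀ ≤ f' := by
    have h1 : Real.log L ≤ F' := by rw [hF'F]; linarith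
    have h2 : L ≤ f' := by
      have := Real.exp_le_exp.2 h1
      rwa [Real.exp_log hL0, hF', Real.exp_log hf'0] at this
    linarith
  have hY0 : 0 < Y := by linarith
  -- the degree bound for the colouring
  obtain ⟨Δ, hΔ⟩ : ∃ Δ : ℕ, Δ = ⌊(1 + b) * Y⌋₊ + 1 := ⟨_, rfl⟩
  have hwΔ : w ≤ Δ := by
    rw [hΔ]
    have : w ≤ ⌊(1 + b) * Y⌋₊ := Nat.le_floor hwY
    omega
  have hΔY : Y ≤ Δ := by
    have h1 : (1 + b) * Y < (⌊(1 + b) * Y⌋₊ : ℝ) + 1 := Nat.lt_floor_add_one _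
    rw [hΔ]; push_cast
    have : 0 < b * Y := by positivity
    linarith
  have hΔY2 : (Δ : ℝ) ≤ (1 + 2 * b) * Y := by
    have h1 : (⌊(1 + b) * Y⌋₊ : ℝ) ≤ (1 + b) * Y := Nat.floor_le (by positivity)
    rw [hΔ]; push_cast
    have h2 : b * (100 * L) ≤ b * Y := mul_le_mul_of_nonneg_left hYL hb0.le
    linarith
  have hΔ0 : (0 : ℝ) < Δ := by linarith
  have hDΔ : (D : ℝ) ^ 2 ≤ (Δ : ℝ) ^ 2 * L ^ 4 := by
    have h1 : (D : ℝ) ≤ Δ * L ^ 2 := hDY.trans (mul_le_mul_of_nonneg_right hΔY (by positivity))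
    have h2 := pow_le_pow_left₀ hD0.le h1 2
    refine h2.trans (le_of_eq ?_)
    ring
  have hf'Δ : f' ≤ (Δ : ℝ) ^ 2 := by
    rw [hf', div_le_iff₀ (by positivity)]
    linarith
  have hEΔ : (D : ℝ) ^ 2 / f ≤ (Δ : ℝ) ^ 2 / f' := by
    rw [hf', div_div_eq_mul_div]
    exact div_le_div_of_nonneg_right hDΔ hf0.le
  obtain ⟨n, ⟨C⟩, hn⟩ := hcol f' hf'f₀ Δ hf'Δ V (insideS G t) (by
    intro v N hN
    refine le_trans ?_ ((ht v (t v)).trans hwΔ)
    apply Finset.card_le_card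
    intro u hu
    have := hN u hu
    rw [mem_filter, SimpleGraph.mem_neighborFinset]
    exact ⟨this.1, this.2.symm⟩) (by
    intro v N hN
    refine le_trans ?_ ((hsp v).trans hEΔ)
    rw [Set.ncard_eq_toFinset_card']
    have h1 : ∑ u ∈ N, ((N.filter (fun w => (insideS G t).Adj u w)).card : ℝ) =
        ((N.sigma (fun u => N.filter (fun w => (insideS G t).Adj u w))).card : ℝ) := by
      rw [Finset.card_sigma]; push_cast; rfl
    rw [h1, Nat.cast_le]
    apply Finset.card_le_card_of_injOn (fun a => (a.1, a.2))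
    · rintro ⟨u, w'⟩ ha
      rw [Finset.mem_coe, Finset.mem_sigma, Finset.mem_filter] at ha
      simp only [Finset.mem_coe, Set.mem_toFinset, Set.mem_setOf_eq]
      exact ⟨(hN u ha.1).1, (hN w' ha.2.1).1, ha.2.2.1⟩
    · rintro ⟨u, w'⟩ _ ⟨u', w''⟩ _ h
      simp only [Prod.mk.injEq] at h
      obtain ⟨rfl, rfl⟩ := h
      rfl)
  have hLF0 : 0 < L / F := by positivity
  refine hfin ((2 + e) * (L / F)) p n (fun v => (C v : ℕ)) (by positivity) ?_ ?_
    (fun v => (C v).2) ?_ ?_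
  · have h1 : (2 + e) * (L / F) ≤ 3 * (L / 600) := by
      apply mul_le_mul (by linarith) _ hLF0.le (by norm_num)
      exact div_le_div_of_nonneg_left hL0.le (by norm_num) hF600
    linarith
  · -- the number of colours
    have h1 : (Δ : ℝ) / F' ≤ (1 + 4 * b) * (Y / F) := by
      rw [div_le_iff₀ hF'0]
      have h3 : (1 + 4 * b) * (Y / F) * ((1 - b) * F) ≤ (1 + 4 * b) * (Y / F) * F' :=
        mul_le_mul_of_nonneg_left hF'1 (by positivity)
      have h4 : (1 + 4 * b) * (Y / F) * ((1 - b) * F) = ((1 + 4 * b) * (1 - b)) * Y := by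
        field_simp
      rw [h4] at h3
      have h5 : 1 + 2 * b ≤ (1 + 4 * b) * (1 - b) := by
        have h6 : b * b ≤ 1 / 16 * b := mul_le_mul_of_nonneg_right hb1 hb0.le
        have h7 : (1 + 4 * b) * (1 - b) = 1 + 3 * b - 4 * (b * b) := by ring
        rw [h7]; linarith
      have h8 : (1 + 2 * b) * Y ≤ ((1 + 4 * b) * (1 - b)) * Y :=
        mul_le_mul_of_nonneg_right h5 hY0.le
      linarith
    have h9 : (2 + e / 2) * (1 + 4 * b) ≤ 2 + e := by
      have h10 : (2 + e / 2) * (1 + 4 * b) = 2 + e / 2 + 8 * b + 2 * (e * b) := by ring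
      have h11 : e * b ≤ 1 * b := mul_le_mul_of_nonneg_right he1 hb0.le
      rw [h10]
      linarith
    have h12 : (n : ℝ) ≤ (2 + e) * (Y / F) := by
      refine hn.trans ?_
      rw [← hF']
      have h13 : (2 + e / 2) * ((Δ : ℝ) / F') ≤ (2 + e / 2) * ((1 + 4 * b) * (Y / F)) :=
        mul_le_mul_of_nonneg_left h1 (by positivity)
      refine h13.trans ?_
      rw [← mul_assoc]
      exact mul_le_mul_of_nonneg_right h9 (by positivity)
    refine h12.trans ?_
    have h14 : (2 + e) * (Y / F) = (2 + e) * (L / F) * Y / L := by field_simp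
    rw [h14]
    have h15 : (2 + e) * (L / F) * Y / L ≤ ((2 + e) * (L / F) + 8 * b) * Y / L := by
      apply div_le_div_of_nonneg_right _ hL0.le
      exact mul_le_mul_of_nonneg_right (by linarith) hY0.le
    linarith
  · intro u v huv htt h
    exact C.valid (show (insideS G t).Adj u v from ⟨huv, htt⟩) (Fin.ext h)
  · refine le_trans ?_ hp
    have h1 : ((2 + e) * (L / F) / 2 + 16 * b) * (D / L) =
        (1 + e / 2) * (D / F) + 16 * b * (D / L) := by field_simp
    rw [h1]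
    have h2 : (D : ℝ) / L ≤ 2 * (D / F) := by
      rw [div_le_iff₀ hL0]
      have h3 : 2 * ((D : ℝ) / F) * L = D * (2 * L / F) := by ring
      rw [h3]
      have h4 : 1 ≤ 2 * L / F := by rw [le_div_iff₀ hF0]; linarith
      have := mul_le_mul_of_nonneg_left h4 hD0.le
      linarith
    have h5 : 16 * b * (D / L) ≤ 16 * b * (2 * (D / F)) :=
      mul_le_mul_of_nonneg_left h2 (by positivity)
    have h6 : (1 + e / 2) * (D / F) + 16 * b * (2 * (D / F)) = (1 + e) * (D / F) := by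
      rw [hb]; ring
    have h7 : (1 + e) * (D / F) ≤ (1 + ε) * (D / F) :=
      mul_le_mul_of_nonneg_right (by linarith) (by positivity)
    linarith

end Pool.Agent.R143.HYF
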